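import Mathlib

/-!
# Confluent limit of a two-variable kernel determinant
-/

set_option autoImplicit false

namespace Pool.Agent.Helper28.Mrr

open Finset Matrix Filter Topology

/-- **Confluent limit.** -/
theorem confluent_lim (m : ℕ) (a : ℕ → ℕ → ℝ) (f : ℝ → ℝ → ℝ) (R : ℝ) (hR : 0 < R)
    (ha : Summable fun p : ℕ × ℕ => |a p.1 p.2| * R ^ p.1 * R ^ p.2)
    (hf : ∀ x y, |x| ≤ R → |y| ≤ R → f x y = ∑' p : ℕ × ℕ, a p.1 p.2 * x ^ p.1 * y ^ p.2)
    (c : Fin m → ℝ) (hc : Function.Injective c) :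
    Tendsto (fun ε : ℝ => (Matrix.of fun k l : Fin m => f (ε * c k) (ε * c l)).det /
      (ε ^ (m * (m - 1)) * (vandermonde c).det ^ 2)) (𝓝[>] 0)
      (𝓝 (Matrix.of fun i j : Fin m => a i j).det) := by
  classical
  set V := vandermonde c with hV
  have hVdet : V.det ≠ 0 := det_vandermonde_ne_zero_iff.2 hc
  set W : Matrix (Fin m) (Fin m) ℝ := V⁻¹ with hW
  have hWV : W * V = 1 := Matrix.nonsing_inv_mul V (isUnit_iff_ne_zero.2 hVdet)
  -- the moments
  set w : Fin m → ℕ → ℝ := fun i p => ∑ k, W i k * c k ^ p with hw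
  have hw1 : ∀ (i : Fin m) (p : ℕ), p < m → w i p = if p = (i : ℕ) then 1 else 0 := by
    intro i p hp
    have h1 : (W * V) i ⟨p, hp⟩ = w i p := by
      rw [Matrix.mul_apply]
      rfl
    rw [← h1, hWV, Matrix.one_apply]
    by_cases h : p = (i : ℕ)
    · rw [if_pos h, if_pos (Fin.ext h.symm)]
    · rw [if_neg h, if_neg (fun h2 => h (by rw [h2]))]
  have hw2 : ∀ (i : Fin m) (p : ℕ), p < i → w i p = 0 := by
    intro i p hp
    rw [hw1 i p (by omega), if_neg (by omega)]
  -- bounds
  obtain ⟨C, hC0, hC⟩ : ∃ C : ℝ, 1 ≤ C ∧ ∀ k, |c k| ≤ C := by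
    refine ⟨1 + ∑ k, |c k|, by
      have : 0 ≤ ∑ k, |c k| := sum_nonneg fun k _ => abs_nonneg _
      linarith, fun k => ?_⟩
    have := single_le_sum (f := fun k => |c k|) (fun k _ => abs_nonneg _) (mem_univ k)
    linarith
  have hCpos : 0 < C := by linarith
  set B : ℝ := ∑ i, ∑ k, |W i k| with hB
  have hB0 : 0 ≤ B := sum_nonneg fun i _ => sum_nonneg fun k _ => abs_nonneg _
  have hwb : ∀ (i : Fin m) (p : ℕ), |w i p| ≤ B * C ^ p := by
    intro i p
    calc |w i p| ≤ ∑ k, |W i k * c k ^ p| := abs_sum_le_sum_abs _ _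
      _ ≤ ∑ k, |W i k| * C ^ p := by
        refine sum_le_sum fun k _ => ?_
        rw [abs_mul, abs_pow]
        exact mul_le_mul_of_nonneg_left (pow_le_pow_left₀ (abs_nonneg _) (hC k) p) (abs_nonneg _)
      _ = (∑ k, |W i k|) * C ^ p := (sum_mul _ _ _).symm
      _ ≤ B * C ^ p := by
        refine mul_le_mul_of_nonneg_right ?_ (by positivity)
        exact single_le_sum (f := fun i => ∑ k, |W i k|)
          (fun i _ => sum_nonneg fun k _ => abs_nonneg _) (mem_univ i)
  -- the radius in `ε`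
  set r : ℝ := R / C with hr
  have hr0 : 0 < r := div_pos hR hCpos
  have hrC : r * C = R := div_mul_cancel₀ R hCpos.ne'
  -- the entries
  set T : ℝ → Fin m → Fin m → ℕ × ℕ → ℝ := fun ε i j p =>
    a p.1 p.2 * (w i p.1 * w j p.2) * (ε ^ (p.1 + p.2) / (ε ^ (i : ℕ) * ε ^ (j : ℕ))) with hT
  have hsumm : ∀ (ε x y : ℝ), |x| ≤ R → |y| ≤ R →
      Summable fun p : ℕ × ℕ => a p.1 p.2 * x ^ p.1 * y ^ p.2 := by
    intro ε x y hx hy
    refine Summable.of_norm_bounded ha fun p => ?_
    rw [Real.norm_eq_abs, abs_mul, abs_mul, abs_pow, abs_pow]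
    gcongr
  have hentry : ∀ ε : ℝ, 0 < ε → ε < r → ∀ i j : Fin m,
      (∑ k, ∑ l, W i k * f (ε * c k) (ε * c l) * W j l) / (ε ^ (i : ℕ) * ε ^ (j : ℕ)) =
        ∑' p, T ε i j p := by
    intro ε hε hεr i j
    have hb : ∀ k, |ε * c k| ≤ R := by
      intro k
      rw [abs_mul, abs_of_pos hε, ← hrC]
      exact mul_le_mul hεr.le (hC k) (abs_nonneg _) hr0.le
    have h1 : HasSum (fun p : ℕ × ℕ => ∑ k, ∑ l, W i k *
        (a p.1 p.2 * (ε * c k) ^ p.1 * (ε * c l) ^ p.2) * W j l)
        (∑ k, ∑ l, W i k * f (ε * c k) (ε * c l) * W j l) := by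
      refine hasSum_sum fun k _ => hasSum_sum fun l _ => ?_
      have h2 := (hsumm ε _ _ (hb k) (hb l)).hasSum
      rw [← hf _ _ (hb k) (hb l)] at h2
      exact (h2.mul_left (W i k)).mul_right (W j l)
    have h3 := (h1.div_const (ε ^ (i : ℕ) * ε ^ (j : ℕ))).tsum_eq
    rw [← h3]
    refine tsum_congr fun p => ?_
    simp only [hT, hw]
    rw [sum_mul_sum, mul_sum, sum_mul, sum_div]
    refine sum_congr rfl fun k _ => ?_
    rw [mul_sum, sum_mul, sum_div]
    refine sum_congr rfl fun l _ => ?_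
    rw [mul_pow, mul_pow, pow_add]
    ring
  have hlim : ∀ i j : Fin m, Tendsto (fun ε : ℝ =>
      (∑ k, ∑ l, W i k * f (ε * c k) (ε * c l) * W j l) / (ε ^ (i : ℕ) * ε ^ (j : ℕ)))
      (𝓝[>] 0) (𝓝 (a i j)) := by
    intro i j
    have hev : ∀ᶠ ε : ℝ in 𝓝[>] 0, 0 < ε ∧ ε < r := by
      filter_upwards [Ioo_mem_nhdsGT hr0] with ε hε
      exact hε
    have h1 : Tendsto (fun ε : ℝ => ∑' p, T ε i j p) (𝓝[>] 0)
        (𝓝 (∑' p : ℕ × ℕ, if p = ((i : ℕ), (j : ℕ)) then a i j else 0)) := by
      refine tendsto_tsum_of_dominated_convergence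
        (bound := fun p : ℕ × ℕ => |a p.1 p.2| * R ^ p.1 * R ^ p.2 *
          (B * B / (r ^ (i : ℕ) * r ^ (j : ℕ)))) (ha.mul_right _) ?_ ?_
      · intro p
        by_cases hz : w i p.1 * w j p.2 = 0
        · have h2 : (if p = ((i : ℕ), (j : ℕ)) then a i j else 0) = (0 : ℝ) := by
            rw [if_neg]
            rintro rfl
            rw [hw1 i i i.2, hw1 j j j.2, if_pos rfl, if_pos rfl] at hz
            norm_num at hz
          rw [h2]
          simp only [hT, hz, mul_zero, zero_mul]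
          exact tendsto_const_nhds
        · have hi : (i : ℕ) ≤ p.1 := by
            by_contra h
            exact hz (by rw [hw2 i p.1 (by omega), zero_mul])
          have hj : (j : ℕ) ≤ p.2 := by
            by_contra h
            exact hz (by rw [hw2 j p.2 (by omega), mul_zero])
          have h3 : ∀ ε : ℝ, 0 < ε → ε ^ (p.1 + p.2) / (ε ^ (i : ℕ) * ε ^ (j : ℕ)) =
              ε ^ ((p.1 - i) + (p.2 - j)) := by
            intro ε hε
            rw [← pow_add, div_eq_iff (by positivity), ← pow_add]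
            congr 1
            omega
          by_cases hp : p = ((i : ℕ), (j : ℕ))
          · rw [if_pos hp]
            refine Tendsto.congr' ?_ tendsto_const_nhds
            filter_upwards [hev] with ε hε
            simp only [hT]
            rw [h3 ε hε.1, hp]
            simp only [Nat.sub_self, add_zero, pow_zero, mul_one]
            rw [hw1 i i i.2, hw1 j j j.2, if_pos rfl, if_pos rfl]
            ring
          · rw [if_neg hp]
            have h4 : (p.1 - i) + (p.2 - j) ≠ 0 := by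
              intro h5
              exact hp (Prod.ext (by simp only; omega) (by simp only; omega))
            have h5 : Tendsto (fun ε : ℝ => a p.1 p.2 * (w i p.1 * w j p.2) *
                ε ^ ((p.1 - i) + (p.2 - j))) (𝓝[>] 0) (𝓝 0) := by
              have h6 : Continuous fun ε : ℝ => a p.1 p.2 * (w i p.1 * w j p.2) *
                ε ^ ((p.1 - i) + (p.2 - j)) := by fun_prop
              have h7 := (h6.tendsto 0).mono_left (nhdsWithin_le_nhds (s := Set.Ioi 0))
              simpa only [zero_pow h4, mul_zero] using h7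
            refine h5.congr' ?_
            filter_upwards [hev] with ε hε
            simp only [hT]
            rw [h3 ε hε.1]
      · filter_upwards [hev] with ε hε p
        by_cases hz : w i p.1 * w j p.2 = 0
        · simp only [hT, hz, mul_zero, zero_mul, norm_zero]
          positivity
        · have hi : (i : ℕ) ≤ p.1 := by
            by_contra h
            exact hz (by rw [hw2 i p.1 (by omega), zero_mul])
          have hj : (j : ℕ) ≤ p.2 := by
            by_contra h
            exact hz (by rw [hw2 j p.2 (by omega), mul_zero])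
          have h3 : ∀ ε : ℝ, 0 < ε → ε ^ (p.1 + p.2) / (ε ^ (i : ℕ) * ε ^ (j : ℕ)) =
              ε ^ ((p.1 - i) + (p.2 - j)) := by
            intro ε hε
            rw [← pow_add, div_eq_iff (by positivity), ← pow_add]
            congr 1
            omega
          have h4 : ε ^ (p.1 + p.2) / (ε ^ (i : ℕ) * ε ^ (j : ℕ)) ≤
              r ^ (p.1 + p.2) / (r ^ (i : ℕ) * r ^ (j : ℕ)) := by
            rw [h3 ε hε.1, h3 r hr0]
            exact pow_le_pow_left₀ hε.1.le hε.2.le _
          have h5 : 0 ≤ ε ^ (p.1 + p.2) / (ε ^ (i : ℕ) * ε ^ (j : ℕ)) := by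
            have := hε.1
            positivity
          simp only [hT]
          rw [Real.norm_eq_abs, abs_mul, abs_mul, abs_mul, abs_of_nonneg h5]
          calc |a p.1 p.2| * (|w i p.1| * |w j p.2|) *
                (ε ^ (p.1 + p.2) / (ε ^ (i : ℕ) * ε ^ (j : ℕ)))
              ≤ |a p.1 p.2| * ((B * C ^ p.1) * (B * C ^ p.2)) *
                (r ^ (p.1 + p.2) / (r ^ (i : ℕ) * r ^ (j : ℕ))) := by
                gcongr
                · exact hwb i p.1
                · exact hwb j p.2
            _ = |a p.1 p.2| * R ^ p.1 * R ^ p.2 * (B * B / (r ^ (i : ℕ) * r ^ (j : ℕ))) := by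
                rw [← hrC, mul_pow, mul_pow, pow_add]
                ring
    rw [tsum_ite_eq] at h1
    refine h1.congr' ?_
    filter_upwards [hev] with ε hε
    exact (hentry ε hε.1 hε.2 i j).symm
  -- the normalised matrix
  have hdet : Tendsto (fun ε : ℝ => (Matrix.of fun i j : Fin m =>
      (∑ k, ∑ l, W i k * f (ε * c k) (ε * c l) * W j l) / (ε ^ (i : ℕ) * ε ^ (j : ℕ))).det)
      (𝓝[>] 0) (𝓝 (Matrix.of fun i j : Fin m => a i j).det) := by
    have h1 : Tendsto (fun ε : ℝ => (Matrix.of fun i j : Fin m =>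
        (∑ k, ∑ l, W i k * f (ε * c k) (ε * c l) * W j l) / (ε ^ (i : ℕ) * ε ^ (j : ℕ))))
        (𝓝[>] 0) (𝓝 (Matrix.of fun i j : Fin m => a i j)) :=
      tendsto_pi_nhds.2 fun i => tendsto_pi_nhds.2 fun j => hlim i j
    exact ((continuous_id.matrix_det).tendsto _).comp h1
  refine hdet.congr' ?_
  filter_upwards [self_mem_nhdsWithin] with ε hε
  have hε0 : (0 : ℝ) < ε := hε
  set F : Matrix (Fin m) (Fin m) ℝ := Matrix.of fun k l : Fin m => f (ε * c k) (ε * c l) with hF
  set D : Matrix (Fin m) (Fin m) ℝ := Matrix.diagonal fun i : Fin m => (ε ^ (i : ℕ))⁻¹ with hD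
  have h1 : (Matrix.of fun i j : Fin m =>
      (∑ k, ∑ l, W i k * f (ε * c k) (ε * c l) * W j l) / (ε ^ (i : ℕ) * ε ^ (j : ℕ))) =
      D * (W * F * W.transpose) * D := by
    ext i j
    rw [hD, Matrix.mul_diagonal, Matrix.diagonal_mul, Matrix.mul_apply]
    simp only [Matrix.of_apply, Matrix.mul_apply, Matrix.transpose_apply, hF]
    rw [sum_comm]
    simp only [sum_mul, mul_sum, sum_div]
    refine sum_congr rfl fun l _ => sum_congr rfl fun k _ => ?_
    field_simp
  have hWd : W.det = V.det⁻¹ := by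
    have := congrArg Matrix.det hWV
    rw [Matrix.det_mul, Matrix.det_one] at this
    exact eq_inv_of_mul_eq_one_left this
  have hDd : D.det * D.det = (ε ^ (m * (m - 1)))⁻¹ := by
    rw [hD, Matrix.det_diagonal, prod_inv_distrib, prod_pow_eq_pow_sum, ← mul_inv, ← pow_add,
      Fin.sum_univ_eq_sum_range (fun i => i) m, ← mul_two, sum_range_id_mul_two]
  rw [h1, Matrix.det_mul, Matrix.det_mul, Matrix.det_mul, Matrix.det_mul, Matrix.det_transpose,
    hWd, show D.det * (V.det⁻¹ * F.det * V.det⁻¹) * D.det = (D.det * D.det) * F.det *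
      (V.det⁻¹ * V.det⁻¹) by ring, hDd]
  field_simp

end Pool.Agent.Helper28.Mrr
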