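import Pool.Agent.Helper28.Mrr.Val

/-!
# The Mills-Robbins-Rumsey determinant

`det_{0 ≤ i, j < n} C(μ + i + j, 2 i - j) = ∏_{J < n} rr μ J`.
-/

set_option autoImplicit false

namespace Pool.Agent.Helper28.Mrr

open Finset Matrix

/-- The Mills-Robbins-Rumsey matrix. -/
noncomputable def mat (μ n : ℕ) : Matrix (Fin n) (Fin n) ℝ := Matrix.of fun i j => bM μ i j

/-- The entries of the unipotent matrix. -/
noncomputable def ue (μ : ℕ) : ℕ → ℕ → ℝ
  | 0, 0 => 1
  | 0, _ + 1 => 0
  | _ + 1, 0 => 0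
  | i + 1, J + 1 => gv μ i (J + 1 : ℝ) / gv μ J (J + 1 : ℝ)

lemma ue_diag (μ J : ℕ) : ue μ J J = 1 := by
  cases J with
  | zero => rfl
  | succ J => exact div_self (gv_top_ne μ J)

lemma ue_lower (μ i J : ℕ) (h : J < i) : ue μ i J = 0 := by
  cases i with
  | zero => omega
  | succ i =>
    cases J with
    | zero => rfl
    | succ J =>
      show gv μ i (J + 1 : ℝ) / _ = 0
      rw [gv_eq_zero μ J i (by omega), zero_div]

lemma sum_trunc (f : ℕ → ℝ) (a b c : ℕ) (h : ∀ k, c ≤ k → f k = 0) (ha : c ≤ a) (hb : c ≤ b) :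
    ∑ k ∈ range a, f k = ∑ k ∈ range b, f k := by
  have key : ∀ a, c ≤ a → ∑ k ∈ range a, f k = ∑ k ∈ range c, f k := by
    intro a ha
    refine (sum_subset (range_mono ha) fun k _ hk => h k ?_).symm
    rw [mem_range] at hk
    omega
  rw [key a ha, key b hb]

lemma prod_entry (μ n l J : ℕ) (hJ : J < n) (hl : l ≤ J) :
    ∑ i ∈ range n, bM μ l i * ue μ i J = if l = J then rr μ J else 0 := by
  obtain ⟨n, rfl⟩ : ∃ m, n = m + 1 := ⟨n - 1, by omega⟩
  rw [sum_range_succ']
  cases J with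
  | zero =>
    have hl0 : l = 0 := by omega
    subst hl0
    rw [if_pos rfl, sum_eq_zero fun k _ => show bM μ 0 (k + 1) * ue μ (k + 1) 0 = 0 from mul_zero _]
    show 0 + bM μ 0 0 * 1 = 1
    unfold bM
    norm_num
  | succ J =>
    show ∑ k ∈ range n, bM μ l (k + 1) * (gv μ k (J + 1 : ℝ) / gv μ J (J + 1 : ℝ)) +
      bM μ l 0 * 0 = _
    rw [mul_zero, add_zero]
    have e1 : ∑ k ∈ range n, bM μ l (k + 1) * (gv μ k (J + 1 : ℝ) / gv μ J (J + 1 : ℝ)) =
        (∑ k ∈ range n, bM μ l (k + 1) * gv μ k (J + 1 : ℝ)) / gv μ J (J + 1 : ℝ) := by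
      rw [sum_div]
      exact sum_congr rfl fun k _ => (mul_div_assoc _ _ _).symm
    rw [e1]
    have hz : ∀ k, min (2 * l) (J + 1) ≤ k → bM μ l (k + 1) * gv μ k (J + 1 : ℝ) = 0 := by
      intro k hk
      rcases le_or_gt (J + 1) k with h | h
      · rw [gv_eq_zero μ J k (by omega), mul_zero]
      · unfold bM
        rw [if_neg (by omega), zero_mul]
    split_ifs with h
    · subst h
      rw [sum_trunc _ n (2 * J + 1) _ hz (by omega) (by omega), sum_eq, last_eq,
        mul_div_assoc, div_self (gv_top_ne μ J), mul_one]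
    · rw [sum_trunc _ n (2 * l) _ hz (by omega) (by omega), sum_lt μ J l (by omega), zero_div]

/-- **The Mills-Robbins-Rumsey determinant.** -/
theorem det_mat (μ n : ℕ) : (mat μ n).det = ∏ J ∈ range n, rr μ J := by
  set U : Matrix (Fin n) (Fin n) ℝ := Matrix.of fun i j => ue μ i j with hU
  have hUt : U.BlockTriangular id := fun i j hij => ue_lower μ i j hij
  have hUdet : U.det = 1 := by
    rw [Matrix.det_of_upperTriangular hUt]
    exact prod_eq_one fun i _ => ue_diag μ i
  have hent : ∀ i j : Fin n, i ≤ j → (mat μ n * U) i j = if (i : ℕ) = j then rr μ j else 0 := by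
    intro i j hij
    rw [Matrix.mul_apply, ← prod_entry μ n i j j.2 hij, ← Fin.sum_univ_eq_sum_range]
    rfl
  have hLt : (mat μ n * U).BlockTriangular OrderDual.toDual := by
    intro i j hij
    have hij' : i < j := hij
    rw [hent i j hij'.le, if_neg]
    intro h
    exact hij'.ne (Fin.ext h)
  have h1 : (mat μ n * U).det = ∏ J ∈ range n, rr μ J := by
    rw [Matrix.det_of_lowerTriangular _ hLt, ← Fin.prod_univ_eq_prod_range]
    refine prod_congr rfl fun i _ => ?_
    rw [hent i i le_rfl, if_pos rfl]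
  rw [Matrix.det_mul, hUdet, mul_one] at h1
  exact h1

/-- The shifted matrix `C(μ + 2 + i + j, 2 i + 1 - j)`. -/
noncomputable def tmat (μ m : ℕ) : Matrix (Fin m) (Fin m) ℝ :=
  Matrix.of fun i j => bM μ (i + 1) (j + 1)

/-- The first row of the matrix is a unit vector. -/
theorem det_tmat (μ m : ℕ) : (tmat μ m).det = ∏ J ∈ range (m + 1), rr μ J := by
  rw [← det_mat, Matrix.det_succ_row_zero, Fin.sum_univ_succ, sum_eq_zero, add_zero]
  · have h1 : mat μ (m + 1) 0 0 = 1 := by
      show bM μ 0 0 = 1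
      unfold bM
      norm_num
    rw [h1]
    simp only [Fin.val_zero, pow_zero, one_mul]
    congr 1
  · intro j _
    have h1 : mat μ (m + 1) 0 j.succ = 0 := by
      show bM μ 0 (j.succ : ℕ) = 0
      unfold bM
      rw [if_neg (by rw [Fin.val_succ]; omega)]
    rw [h1]
    ring

end Pool.Agent.Helper28.Mrr
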