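import Pool.Agent.Helper28.Mrr.Kern
import Pool.Agent.Helper28.Mrr.Confl

/-!
# Homogeneous limit of the kernel determinant
-/

set_option autoImplicit false

namespace Pool.Agent.Helper28.Mrr

open Finset Matrix Filter Topology

/-- The quadratic form `X² + X Y + Y² - 3`. -/
noncomputable def qq (X Y : ℝ) : ℝ := X ^ 2 + X * Y + Y ^ 2 - 3

/-- Complete homogeneous polynomials of `v, v'`, where `v + v' = 4 + X`, `v v' = (X + 1)²`. -/
noncomputable def hh (X : ℝ) : ℕ → ℝ
  | 0 => 1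
  | 1 => 4 + X
  | n + 2 => (4 + X) * hh X (n + 1) - (X + 1) ^ 2 * hh X n

/-- The kernel (all `N = μ + 1` spectator variables equal to `2`). -/
noncomputable def kern (μ : ℕ) (X Y : ℝ) : ℝ := ((Y - 2) * hh X μ + hh X (μ + 1)) / qq X Y

/-- The symmetric function of the doubled variables. -/
noncomputable def GG (μ m : ℕ) (X : Fin m → ℝ) : ℝ :=
  (∏ k, ∏ l, qq (X k) (X l)) / (vandermonde X).det ^ 2 *
    (Matrix.of fun k l => kern μ (X k) (X l)).det

/-- The local coordinate. -/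
noncomputable def Xx (x : ℝ) : ℝ := (2 - x) / (1 + x)

/-- The generating function. -/
noncomputable def Tf (μ : ℕ) (x y : ℝ) : ℝ := ∑' p : ℕ × ℕ, tt μ p.1 p.2 * x ^ p.1 * y ^ p.2

lemma hh_Xx {x : ℝ} (hx : 1 + x ≠ 0) : ∀ n : ℕ, hh (Xx x) n = (3 / (1 + x)) ^ n * UU x n := by
  intro n
  induction n using Nat.strong_induction_on with
  | _ n ih =>
    match n, ih with
    | 0, _ => simp [hh, UU]
    | 1, _ =>
      show 4 + Xx x = _ * (2 + x)
      unfold Xx
      field_simp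
      ring
    | n + 2, ih =>
      show (4 + Xx x) * hh (Xx x) (n + 1) - (Xx x + 1) ^ 2 * hh (Xx x) n =
        _ * ((2 + x) * UU x (n + 1) - UU x n)
      rw [ih n (by omega), ih (n + 1) (by omega)]
      have e1 : 4 + Xx x = 3 / (1 + x) * (2 + x) := by
        unfold Xx
        field_simp
        ring
      have e2 : Xx x + 1 = 3 / (1 + x) := by
        unfold Xx
        field_simp
        ring
      rw [e1, e2]
      ring

lemma qq_Xx {x y : ℝ} (hx : 1 + x ≠ 0) (hy : 1 + y ≠ 0) : qq (Xx x) (Xx y) =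
    9 * (1 - 3 * x * y - x ^ 2 * y - x * y ^ 2) / ((1 + x) ^ 2 * (1 + y) ^ 2) := by
  unfold qq Xx
  field_simp
  ring

lemma phi_zero_one {x : ℝ} : phi 0 1 x = 1 + 6 * x + 5 * x ^ 2 + x ^ 3 := by
  unfold phi
  rw [tsum_eq_sum (s := range 4)]
  · rw [sum_range_succ, sum_range_succ, sum_range_succ, sum_range_one]
    unfold tt bM
    norm_num [Nat.choose]
  · intro i hi
    rw [mem_range] at hi
    unfold tt bM
    rw [if_pos (by omega), Nat.choose_eq_zero_of_lt (by omega)]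
    norm_num

lemma Tf_eq (μ : ℕ) {x y : ℝ} (hx : |x| ≤ 1 / 8) (hy : |y| ≤ 1 / 8) :
    (1 - 3 * x * y - x ^ 2 * y - x * y ^ 2) * Tf μ x y =
      (1 + y) * UU x (μ + 1) - y * (1 + x) * UU x μ := by
  unfold Tf
  rw [gen_fun μ hx hy]
  cases μ with
  | zero =>
    rw [phi_zero_one, phi_zero_zero]
    show _ = (1 + y) * (2 + x) - y * (1 + x) * 1
    ring
  | succ μ =>
    rw [phi_col_one μ hx, phi_eq_UU hx, phi_eq_UU hx]
    ring

lemma Q_pos {x y : ℝ} (hx : |x| ≤ 1 / 8) (hy : |y| ≤ 1 / 8) :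
    0 < 1 - 3 * x * y - x ^ 2 * y - x * y ^ 2 := by
  rw [abs_le] at hx hy
  nlinarith [mul_nonneg (sub_nonneg.2 hx.2) (sub_nonneg.2 hy.2),
    mul_nonneg (sub_nonneg.2 hx.2) (sub_nonneg.2 hy.1), sq_nonneg x, sq_nonneg y,
    mul_nonneg (sub_nonneg.2 hx.1) (sub_nonneg.2 hy.2),
    mul_nonneg (sub_nonneg.2 hx.1) (sub_nonneg.2 hy.1),
    mul_nonneg (sq_nonneg x) (sub_nonneg.2 hy.2), mul_nonneg (sq_nonneg y) (sub_nonneg.2 hx.2)]

lemma kern_Xx (μ : ℕ) {x y : ℝ} (hx : |x| ≤ 1 / 8) (hy : |y| ≤ 1 / 8) :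
    kern μ (Xx x) (Xx y) = ((3 / (1 + x)) ^ μ * (1 + x)) * (((1 + y) / 3) * Tf μ x y) := by
  have hx1 : 1 + x ≠ 0 := by rw [abs_le] at hx; intro h; linarith
  have hy1 : 1 + y ≠ 0 := by rw [abs_le] at hy; intro h; linarith
  have hQ := (Q_pos hx hy).ne'
  have hT : Tf μ x y = ((1 + y) * UU x (μ + 1) - y * (1 + x) * UU x μ) /
      (1 - 3 * x * y - x ^ 2 * y - x * y ^ 2) := by
    rw [← Tf_eq μ hx hy]
    field_simp
  have e1 : Xx y - 2 = -3 * y / (1 + y) := by
    unfold Xx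
    field_simp
    ring
  unfold kern
  rw [hh_Xx hx1, hh_Xx hx1, qq_Xx hx1 hy1, hT, e1, pow_succ]
  set Q := 1 - 3 * x * y - x ^ 2 * y - x * y ^ 2 with hQd
  set u := (3 / (1 + x)) ^ μ with hu
  field_simp
  ring

lemma prod_pairs_const (m : ℕ) (t : ℝ) :
    (∏ i : Fin m, ∏ _j ∈ Ioi i, t) ^ 2 = t ^ (m * (m - 1)) := by
  have h1 : ∏ i : Fin m, ∏ _j ∈ Ioi i, t = t ^ (∑ i ∈ range m, i) := by
    simp only [prod_const, Fin.card_Ioi]
    rw [prod_pow_eq_pow_sum, Fin.sum_univ_eq_sum_range (fun i => m - 1 - i) m,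
      sum_range_reflect (fun i => i) m]
  rw [h1, ← pow_mul, sum_range_id_mul_two]

/-- **Homogeneous limit.** -/
theorem GG_tendsto (μ m : ℕ) (c : Fin m → ℝ) (hc : Function.Injective c) :
    Tendsto (fun ε : ℝ => GG μ m fun k => Xx (ε * c k)) (𝓝[>] 0)
      (𝓝 (3 ^ (m ^ 2 + μ * m) * (tmat μ m).det)) := by
  classical
  have h1 := confluent_lim m (tt μ) (Tf μ) (1 / 8) (by norm_num) (summable_tt μ)
    (fun _ _ _ _ => rfl) c hc
  -- the regular factors
  set A : ℝ → ℝ := fun ε => ∏ k : Fin m, ∏ l : Fin m, qq (Xx (ε * c k)) (Xx (ε * c l)) with hA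
  set B : ℝ → ℝ := fun ε => ∏ k : Fin m, ((3 / (1 + ε * c k)) ^ μ * (1 + ε * c k)) with hB
  set E : ℝ → ℝ := fun ε => ∏ k : Fin m, ((1 + ε * c k) / 3) with hE
  set P : ℝ → ℝ := fun ε => (∏ i : Fin m, ∏ j ∈ Ioi i,
    (-3 / ((1 + ε * c i) * (1 + ε * c j)))) ^ 2 with hP
  have cX : ∀ t : ℝ, ContinuousAt (fun ε : ℝ => Xx (ε * t)) 0 := by
    intro t
    unfold Xx
    exact ContinuousAt.div (by fun_prop) (by fun_prop) (by norm_num)
  have hA0 : Tendsto A (𝓝[>] 0) (𝓝 (9 ^ (m * m))) := by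
    have : ContinuousAt A 0 := by
      refine tendsto_finsetProd _ fun k _ => tendsto_finsetProd _ fun l _ => ?_
      have h2 : ContinuousAt (fun ε : ℝ => qq (Xx (ε * c k)) (Xx (ε * c l))) 0 := by
        unfold qq
        exact (((cX _).pow 2).add ((cX _).mul (cX _))).add ((cX _).pow 2) |>.sub
          continuousAt_const
      exact h2
    have h2 := this.tendsto.mono_left (nhdsWithin_le_nhds (s := Set.Ioi (0 : ℝ)))
    convert h2 using 2
    simp only [hA, zero_mul, prod_const, card_univ, Fintype.card_fin]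
    unfold qq Xx
    rw [← pow_mul]
    norm_num
  have hB0 : Tendsto B (𝓝[>] 0) (𝓝 (3 ^ (μ * m))) := by
    have : ContinuousAt B 0 := by
      refine tendsto_finsetProd _ fun k _ => ?_
      have h2 : ContinuousAt (fun ε : ℝ => (3 / (1 + ε * c k)) ^ μ * (1 + ε * c k)) 0 :=
        ((ContinuousAt.div (by fun_prop) (by fun_prop) (by norm_num)).pow μ).mul (by fun_prop)
      exact h2
    have h2 := this.tendsto.mono_left (nhdsWithin_le_nhds (s := Set.Ioi (0 : ℝ)))
    convert h2 using 2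
    simp only [hB, zero_mul, prod_const, card_univ, Fintype.card_fin]
    rw [pow_mul]
    norm_num
  have hE0 : Tendsto E (𝓝[>] 0) (𝓝 ((1 / 3) ^ m)) := by
    have : Continuous E := by
      refine continuous_finsetProd _ fun k _ => ?_
      fun_prop
    have h2 := (this.tendsto 0).mono_left (nhdsWithin_le_nhds (s := Set.Ioi (0 : ℝ)))
    convert h2 using 2
    simp only [hE, zero_mul, prod_const, card_univ, Fintype.card_fin]
    norm_num
  have hP0 : Tendsto P (𝓝[>] 0) (𝓝 ((-3) ^ (m * (m - 1)))) := by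
    have : ContinuousAt P 0 := by
      have h3 : ContinuousAt (fun ε : ℝ => ∏ i : Fin m, ∏ j ∈ Ioi i,
          (-3 / ((1 + ε * c i) * (1 + ε * c j)))) 0 := by
        refine tendsto_finsetProd _ fun k _ => tendsto_finsetProd _ fun l _ => ?_
        have h2 : ContinuousAt (fun ε : ℝ => -3 / ((1 + ε * c k) * (1 + ε * c l))) 0 :=
          ContinuousAt.div (by fun_prop) (by fun_prop) (by norm_num)
        exact h2
      exact h3.pow 2
    have h2 := this.tendsto.mono_left (nhdsWithin_le_nhds (s := Set.Ioi (0 : ℝ)))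
    convert h2 using 2
    rw [← prod_pairs_const m (-3)]
    simp only [hP, zero_mul]
    norm_num
  have hP0' : ((-3 : ℝ) ^ (m * (m - 1))) ≠ 0 := by positivity
  have h2 : Tendsto (fun ε : ℝ => A ε * B ε * E ε / P ε *
      ((Matrix.of fun k l : Fin m => Tf μ (ε * c k) (ε * c l)).det /
      (ε ^ (m * (m - 1)) * (vandermonde c).det ^ 2))) (𝓝[>] 0)
      (𝓝 (9 ^ (m * m) * 3 ^ (μ * m) * (1 / 3) ^ m / (-3) ^ (m * (m - 1)) * (tmat μ m).det)) :=
    (((hA0.mul hB0).mul hE0).div hP0 hP0').mul h1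
  have hconst : (9 : ℝ) ^ (m * m) * 3 ^ (μ * m) * (1 / 3) ^ m / (-3) ^ (m * (m - 1)) =
      3 ^ (m ^ 2 + μ * m) := by
    have e1 : (-3 : ℝ) ^ (m * (m - 1)) = 3 ^ (m * (m - 1)) := by
      have : Even (m * (m - 1)) := Nat.even_mul_pred_self m
      exact this.neg_pow 3
    rw [e1, show (9 : ℝ) = 3 ^ 2 by norm_num, ← pow_mul, one_div, inv_pow, div_eq_iff
      (by positivity), ← pow_add, ← div_eq_mul_inv, div_eq_iff (by positivity), ← pow_add,
      ← pow_add]
    congr 1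
    rcases m with _ | m
    · ring
    · rw [Nat.add_sub_cancel]
      ring
  rw [hconst] at h2
  refine h2.congr' ?_
  -- a bound on `ε`
  obtain ⟨C, hC0, hC⟩ : ∃ C : ℝ, 0 < C ∧ ∀ k, |c k| ≤ C := by
    refine ⟨1 + ∑ k, |c k|, by
      have : 0 ≤ ∑ k, |c k| := sum_nonneg fun k _ => abs_nonneg _
      linarith, fun k => ?_⟩
    have := single_le_sum (f := fun k => |c k|) (fun k _ => abs_nonneg _) (mem_univ k)
    linarith
  filter_upwards [Ioo_mem_nhdsGT (show (0 : ℝ) < 1 / 8 / C by positivity)] with ε hε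
  have hb : ∀ k, |ε * c k| ≤ 1 / 8 := by
    intro k
    rw [abs_mul, abs_of_pos hε.1]
    calc ε * |c k| ≤ (1 / 8 / C) * C :=
          mul_le_mul hε.2.le (hC k) (abs_nonneg _) (by positivity)
      _ = 1 / 8 := div_mul_cancel₀ _ hC0.ne'
  have h1k : ∀ k, 1 + ε * c k ≠ 0 := by
    intro k h
    have := hb k
    rw [abs_le] at this
    linarith
  have hV : (vandermonde fun k => Xx (ε * c k)).det ^ 2 =
      P ε * (ε ^ (m * (m - 1)) * (vandermonde c).det ^ 2) := by
    have e1 : (vandermonde fun k => Xx (ε * c k)).det =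
        (∏ i : Fin m, ∏ j ∈ Ioi i, (-3 / ((1 + ε * c i) * (1 + ε * c j)))) *
          ((∏ i : Fin m, ∏ _j ∈ Ioi i, ε) * (vandermonde c).det) := by
      rw [det_vandermonde, det_vandermonde, ← prod_mul_distrib, ← prod_mul_distrib]
      refine prod_congr rfl fun i _ => ?_
      rw [← prod_mul_distrib, ← prod_mul_distrib]
      refine prod_congr rfl fun j _ => ?_
      have hi := h1k i
      have hj := h1k j
      unfold Xx
      field_simp
      ring
    rw [e1, mul_pow, mul_pow, prod_pairs_const]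
  have hK : (Matrix.of fun k l : Fin m => kern μ (Xx (ε * c k)) (Xx (ε * c l))).det =
      B ε * (E ε * (Matrix.of fun k l : Fin m => Tf μ (ε * c k) (ε * c l)).det) := by
    have e1 : (Matrix.of fun k l : Fin m => kern μ (Xx (ε * c k)) (Xx (ε * c l))) =
        Matrix.of fun k l : Fin m => ((3 / (1 + ε * c k)) ^ μ * (1 + ε * c k)) *
          (Matrix.of fun k l : Fin m => ((1 + ε * c l) / 3) *
            (Matrix.of fun k l : Fin m => Tf μ (ε * c k) (ε * c l)) k l) k l := by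
      ext k l
      exact kern_Xx μ (hb k) (hb l)
    rw [e1, Matrix.det_mul_column, Matrix.det_mul_row]
  unfold GG
  rw [hV, hK]
  have hP1 : P ε ≠ 0 := by
    refine pow_ne_zero 2 (prod_ne_zero_iff.2 fun i _ => prod_ne_zero_iff.2 fun j _ => ?_)
    exact div_ne_zero (by norm_num) (mul_ne_zero (h1k i) (h1k j))
  have hε1 := hε.1.ne'
  have hV1 : (vandermonde c).det ≠ 0 := det_vandermonde_ne_zero_iff.2 hc
  simp only [hA]
  field_simp

/-- The homogeneous limit with the product formula. -/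
theorem GG_tendsto' (μ m : ℕ) (c : Fin m → ℝ) (hc : Function.Injective c) :
    Tendsto (fun ε : ℝ => GG μ m fun k => Xx (ε * c k)) (𝓝[>] 0)
      (𝓝 (3 ^ (m ^ 2 + μ * m) * ∏ J ∈ range (m + 1), rr μ J)) := by
  rw [← det_tmat]
  exact GG_tendsto μ m c hc

end Pool.Agent.Helper28.Mrr
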