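import Mathlib

/-!
# The Mills-Robbins-Rumsey determinant: the recurrence

For a sequence `g` with the two-term relation `Rel μ J g` (the Petkovsek-Wilf vector), the sums
`S l = ∑ k, C(μ + l + k + 1, 2 l - k - 1) g k` satisfy a second order recurrence in `l`; for
non-integer `J` they vanish.
-/

set_option autoImplicit false

namespace Pool.Agent.Helper28.Mrr

open Finset

/-- The inverse factorial on the integers. -/
noncomputable def rf (n : ℤ) : ℝ := if 0 ≤ n then ((n.toNat.factorial : ℕ) : ℝ)⁻¹ else 0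

lemma rf_neg {n : ℤ} (h : n < 0) : rf n = 0 := if_neg (by omega)

lemma rf_natCast (n : ℕ) : rf n = ((n.factorial : ℕ) : ℝ)⁻¹ := by
  unfold rf
  rw [if_pos (by omega), Int.toNat_natCast]

lemma rf_pred (n : ℤ) : rf (n - 1) = n * rf n := by
  rcases lt_trichotomy n 0 with h | h | h
  · rw [rf_neg h, rf_neg (by omega)]; ring
  · subst h; rw [rf_neg (by omega)]; simp
  · obtain ⟨m, rfl⟩ : ∃ m : ℕ, n = m + 1 := ⟨(n - 1).toNat, by omega⟩
    rw [add_sub_cancel_right, rf_natCast, show (m : ℤ) + 1 = ((m + 1 : ℕ) : ℤ) by push_cast; ring,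
      rf_natCast, Nat.factorial_succ]
    have : ((m.factorial : ℕ) : ℝ) ≠ 0 := by exact_mod_cast m.factorial_ne_zero
    push_cast
    field_simp

/-- The entry `C(μ + i + j, 2 i - j)`. -/
noncomputable def bM (μ i j : ℕ) : ℝ := if j ≤ 2 * i then ((μ + i + j).choose (2 * i - j) : ℝ) else 0

lemma bM_eq (μ i j : ℕ) : bM μ i j =
    ((μ + i + j).factorial : ℝ) * rf (2 * i - j) * rf (μ - i + 2 * j) := by
  unfold bM
  split_ifs with h
  · rw [show (2 * (i : ℤ) - j) = ((2 * i - j : ℕ) : ℤ) by push_cast [h]; ring, rf_natCast]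
    by_cases h2 : i ≤ μ + 2 * j
    · rw [show ((μ : ℤ) - i + 2 * j) = ((μ + 2 * j - i : ℕ) : ℤ) by push_cast [h2]; ring,
        rf_natCast, Nat.cast_choose ℝ (show 2 * i - j ≤ μ + i + j by omega),
        show μ + i + j - (2 * i - j) = μ + 2 * j - i by omega]
      field_simp
    · rw [rf_neg (by omega), Nat.choose_eq_zero_of_lt (by omega)]
      simp
  · rw [rf_neg (by omega)]; simp

/-- The two-term relation of the vector; `g k` is the entry of index `k + 1`. -/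
def Rel (μ : ℕ) (J : ℝ) (g : ℕ → ℝ) : Prop := ∀ k : ℕ,
  ((k : ℝ) + 1) * (2 * J - 2 - k) * (2 * μ + 2 * J + k + 3) * g (k + 1) =
    -2 * (μ + k + 2) * (2 * μ + 2 * J + 2 * k + 3) * (J - k - 1) * g k

/-- The coefficients of the recurrence. -/
noncomputable def c0 (μ l J : ℝ) : ℝ := (l + μ + 2) * (l - 2 * J - μ) * (l + 2 * J + μ + 1)

noncomputable def c1 (μ l J : ℝ) : ℝ :=
  8 * l ^ 3 + 8 * l ^ 2 * μ + 36 * l ^ 2 - 20 * l * J ^ 2 - 20 * l * J * μ - 10 * l * J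
    - 4 * l * μ ^ 2 + 14 * l * μ + 52 * l - 16 * J ^ 2 * μ - 44 * J ^ 2 - 16 * J * μ ^ 2
    - 52 * J * μ - 22 * J - 4 * μ ^ 3 - 14 * μ ^ 2 + 24

noncomputable def c2 (μ l J : ℝ) : ℝ := 4 * (2 * l + 3) * (l + 2 - J) * (2 * l + 2 * μ + 2 * J + 5)

/-- The base term. -/
noncomputable def base (μ l i : ℕ) : ℝ :=
  ((μ + l + i).factorial : ℝ) * rf (2 * l + 4 - i) * rf (μ - l + 2 * i)

/-- The certificate. -/
noncomputable def cert (μ l : ℕ) (J : ℝ) (g : ℕ → ℝ) (k : ℕ) : ℝ :=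
  (6 * l * μ - 2 * l + 2 * μ ^ 2 + 10 * μ - 4 + (9 * l + 3 * μ + 16) * (k + 1)) * k *
    (2 * J - (k + 1)) * (2 * μ + 2 * J + (k + 1) + 1) * (μ - l + 2 * (k + 1) - 1) *
    (μ - l + 2 * (k + 1)) * base μ l (k + 1) * g k

lemma step (μ l : ℕ) (J : ℝ) (g : ℕ → ℝ) (hg : Rel μ J g) (k : ℕ) :
    c0 μ l J * (bM μ l (k + 1) * g k) + c1 μ l J * (bM μ (l + 1) (k + 1) * g k) +
      c2 μ l J * (bM μ (l + 2) (k + 1) * g k) = cert μ l J g (k + 1) - cert μ l J g k := by
  have h4 : rf (2 * l + 4 - (k + 1 : ℕ)) = rf (2 * l + 4 - (k + 1 : ℕ)) := rfl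
  set a : ℝ := ((μ + l + (k + 1)).factorial : ℝ) with ha
  set u : ℝ := rf (2 * l + 4 - (k + 1 : ℕ)) with hu
  set v : ℝ := rf (μ - l + 2 * (k + 1 : ℕ)) with hv
  -- the shifted inverse factorials
  have e3 : rf (2 * l + 4 - (k + 1 : ℕ) - 1) = (2 * l + 3 - k) * u := by
    rw [rf_pred, hu]; push_cast; ring
  have e2 : rf (2 * l + 4 - (k + 1 : ℕ) - 2) = (2 * l + 2 - k) * ((2 * l + 3 - k) * u) := by
    rw [show (2 * (l : ℤ) + 4 - (k + 1 : ℕ) - 2) = (2 * l + 4 - (k + 1 : ℕ) - 1) - 1 by ring,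
      rf_pred, e3]; push_cast; ring
  have e1 : rf (2 * l + 4 - (k + 1 : ℕ) - 3) =
      (2 * l + 1 - k) * ((2 * l + 2 - k) * ((2 * l + 3 - k) * u)) := by
    rw [show (2 * (l : ℤ) + 4 - (k + 1 : ℕ) - 3) = (2 * l + 4 - (k + 1 : ℕ) - 2) - 1 by ring,
      rf_pred, e2]; push_cast; ring
  have e0 : rf (2 * l + 4 - (k + 1 : ℕ) - 4) =
      (2 * l - k) * ((2 * l + 1 - k) * ((2 * l + 2 - k) * ((2 * l + 3 - k) * u))) := by
    rw [show (2 * (l : ℤ) + 4 - (k + 1 : ℕ) - 4) = (2 * l + 4 - (k + 1 : ℕ) - 3) - 1 by ring,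
      rf_pred, e1]; push_cast; ring
  have f1 : rf (μ - l + 2 * (k + 1 : ℕ) - 1) = (μ - l + 2 * (k + 1)) * v := by
    rw [rf_pred, hv]; push_cast; ring
  have f2 : rf (μ - l + 2 * (k + 1 : ℕ) - 2) =
      (μ - l + 2 * (k + 1) - 1) * ((μ - l + 2 * (k + 1)) * v) := by
    rw [show ((μ : ℤ) - l + 2 * (k + 1 : ℕ) - 2) = (μ - l + 2 * (k + 1 : ℕ) - 1) - 1 by ring,
      rf_pred, f1]; push_cast; ring
  have f3 : v = (μ - l + 2 * (k + 1) + 1) * ((μ - l + 2 * (k + 1) + 2) *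
      rf (μ - l + 2 * (k + 1 + 1 : ℕ))) := by
    rw [hv, show ((μ : ℤ) - l + 2 * (k + 1 : ℕ)) = (μ - l + 2 * (k + 1 + 1 : ℕ) - 1) - 1 by
      push_cast; ring, rf_pred, rf_pred]
    push_cast
    ring
  have F0 : bM μ l (k + 1) =
      a * ((2 * l - k) * ((2 * l + 1 - k) * ((2 * l + 2 - k) * ((2 * l + 3 - k) * u)))) * v := by
    rw [bM_eq, ← e0, ha, hv]
    congr 3
    push_cast; ring
  have F1 : bM μ (l + 1) (k + 1) = ((μ + l + k + 2) * a) *
      ((2 * l + 2 - k) * ((2 * l + 3 - k) * u)) * ((μ - l + 2 * (k + 1)) * v) := by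
    rw [bM_eq, ← e2, ← f1, show μ + (l + 1) + (k + 1) = (μ + l + (k + 1)) + 1 by ring,
      Nat.factorial_succ, ha]
    congr 1
    · congr 1
      · push_cast; ring
      · congr 1; push_cast; ring
    · congr 1; push_cast; ring
  have F2 : bM μ (l + 2) (k + 1) = ((μ + l + k + 3) * ((μ + l + k + 2) * a)) * u *
      ((μ - l + 2 * (k + 1) - 1) * ((μ - l + 2 * (k + 1)) * v)) := by
    rw [bM_eq, ← f2, hu, show μ + (l + 2) + (k + 1) = (μ + l + (k + 1)) + 1 + 1 by ring,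
      Nat.factorial_succ, Nat.factorial_succ, ha]
    congr 1
    · congr 1
      push_cast; ring
    · congr 1; push_cast; ring
  have C0 : cert μ l J g k = (6 * l * μ - 2 * l + 2 * μ ^ 2 + 10 * μ - 4 +
      (9 * l + 3 * μ + 16) * (k + 1)) * k *
    (2 * J - (k + 1)) * (2 * μ + 2 * J + (k + 1) + 1) * (μ - l + 2 * (k + 1) - 1) *
    (μ - l + 2 * (k + 1)) * (a * u * v) * g k := rfl
  have C1 : cert μ l J g (k + 1) = (6 * l * μ - 2 * l + 2 * μ ^ 2 + 10 * μ - 4 +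
      (9 * l + 3 * μ + 16) * (k + 2)) * ((μ + l + k + 2) * a) * ((2 * l + 3 - k) * u) * v *
      (((k : ℝ) + 1) * (2 * J - 2 - k) * (2 * μ + 2 * J + k + 3) * g (k + 1)) := by
    unfold cert base
    rw [show μ + l + (k + 1 + 1) = (μ + l + (k + 1)) + 1 by ring, Nat.factorial_succ,
      show (2 * (l : ℤ) + 4 - (k + 1 + 1 : ℕ)) = 2 * l + 4 - (k + 1 : ℕ) - 1 by push_cast; ring,
      e3]
    push_cast
    rw [ha] at *
    set w := rf (μ - l + 2 * (k + 1 + 1 : ℕ)) with hw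
    have hw' : rf ((μ : ℤ) - l + 2 * ((k : ℤ) + 1 + 1)) = w := by rw [hw]; push_cast; rfl
    rw [hw', f3]
    push_cast
    ring
  rw [C1, hg k, C0, F0, F1, F2]
  unfold c0 c1 c2
  ring

/-- The recurrence of the sums. -/
lemma sum_rec (μ l : ℕ) (J : ℝ) (g : ℕ → ℝ) (hg : Rel μ J g) (n : ℕ) (hn : 2 * l + 4 ≤ n) :
    c0 μ l J * ∑ k ∈ range n, bM μ l (k + 1) * g k +
      c1 μ l J * ∑ k ∈ range n, bM μ (l + 1) (k + 1) * g k +
      c2 μ l J * ∑ k ∈ range n, bM μ (l + 2) (k + 1) * g k = 0 := by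
  rw [mul_sum, mul_sum, mul_sum, ← sum_add_distrib, ← sum_add_distrib,
    sum_congr rfl fun k _ => step μ l J g hg k, sum_range_sub]
  have h1 : cert μ l J g 0 = 0 := by unfold cert; push_cast; ring
  have h2 : cert μ l J g n = 0 := by
    unfold cert base
    rw [show rf (2 * l + 4 - (n + 1 : ℕ)) = 0 from rf_neg (by push_cast; omega)]
    ring
  rw [h1, h2, sub_zero]

/-- The sums vanish when `J` is not an integer. -/
lemma sum_zero (μ : ℕ) (J : ℝ) (hJ : ∀ l : ℕ, (l : ℝ) + 2 - J ≠ 0) (hJ0 : 0 < J) (g : ℕ → ℝ)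
    (hg : Rel μ J g) (h01 : g 1 = -(μ + 2) * g 0) (n : ℕ) :
    ∀ l : ℕ, 2 * l ≤ n → ∑ k ∈ range n, bM μ l (k + 1) * g k = 0 := by
  intro l
  induction l using Nat.strong_induction_on with
  | _ l ih =>
    intro hl
    match l, ih, hl with
    | 0, _, _ =>
      refine sum_eq_zero fun k _ => ?_
      unfold bM
      rw [if_neg (by omega), zero_mul]
    | 1, _, hl =>
      have : range n = range 2 ∪ Ico 2 n := by
        ext k; simp only [mem_range, mem_union, mem_Ico]; omega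
      rw [this, sum_union (by
        rw [disjoint_left]; intro k; simp only [mem_range, mem_Ico]; omega),
        sum_eq_zero (s := Ico 2 n) (fun k hk => by
          rw [mem_Ico] at hk
          unfold bM
          rw [if_neg (by omega), zero_mul])]
      rw [sum_range_succ, sum_range_one, h01]
      unfold bM
      norm_num
      ring
    | l + 2, ih, hl =>
      have h1 := sum_rec μ l J g hg n (by omega)
      rw [ih l (by omega) (by omega), ih (l + 1) (by omega) (by omega)] at h1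
      have h2 : c2 μ l J ≠ 0 := by
        unfold c2
        have h3 := hJ l
        have h4 : (2 * (l : ℝ) + 2 * μ + 2 * J + 5) ≠ 0 := by positivity
        have h5 : (2 * (l : ℝ) + 3) ≠ 0 := by positivity
        exact mul_ne_zero (mul_ne_zero (mul_ne_zero (by norm_num) h5) h3) h4
      rw [mul_zero, mul_zero, zero_add, zero_add] at h1
      exact (mul_eq_zero.1 h1).resolve_left h2

end Pool.Agent.Helper28.Mrr
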